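import Pool.Agent.Q100.CT.Stm

set_option autoImplicit false

open Set Filter Topology

namespace Pool.Agent.Q186.CT

open Pool.Agent.Q100.CT

variable {V Z : Type} [NormedAddCommGroup V] [InnerProductSpace ℝ V]
  [NormedAddCommGroup Z] [NormedSpace ℝ Z]

/-- There is a chain of `n` short steps from the neutral element to `g`. -/
def Ch (B : Form V Z) (n : ℕ) (g : V × Z) : Prop :=
  ∃ p : ℕ → V × Z, p 0 = 0 ∧ p n = g ∧ ∀ i, rho B (p i) (p (i + 1)) ≤ 1

theorem Ch.mul {B : Form V Z} {n m : ℕ} {g g' : V × Z} (h : Ch B n g) (h' : Ch B m g') :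
    Ch B (n + m) (mul B g g') := by
  obtain ⟨p, p0, pn, ps⟩ := h
  obtain ⟨q, q0, qm, qs⟩ := h'
  refine ⟨fun i => if i ≤ n then p i else Pool.Agent.Q100.CT.mul B g (q (i - n)), ?_, ?_, ?_⟩
  · simp [p0]
  · by_cases hm : m = 0
    · subst hm
      rw [q0] at qm
      subst qm
      simp [pn]
    · have : ¬ (n + m ≤ n) := by omega
      simp only [this, if_false]
      rw [Nat.add_sub_cancel_left, qm]
  · intro i
    by_cases h1 : i + 1 ≤ n
    · have h2 : i ≤ n := by omega
      simp only [h1, h2, if_true]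
      exact ps i
    · by_cases h2 : i ≤ n
      · have h3 : i = n := by omega
        subst h3
        simp only [le_refl, if_true, h1, if_false]
        have h4 : i + 1 - i = 1 := by omega
        rw [h4, pn]
        have h5 := rho_left B g (q 0) (q 1)
        rw [q0, mulz] at h5
        rw [h5, ← q0]
        exact qs 0
      · simp only [h1, h2, if_false]
        have h4 : i + 1 - n = (i - n) + 1 := by omega
        rw [h4, rho_left]
        exact qs _

theorem Ch.one {B : Form V Z} {u : V} (hu : ‖u‖ ≤ 1) : Ch B 1 ((u, 0) : V × Z) := by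
  refine ⟨fun i => if i = 0 then 0 else (u, 0), by simp, by simp, ?_⟩
  intro i
  by_cases h : i = 0
  · subst h
    simp only [if_true]
    rw [if_neg (by norm_num), rho_zero, nrm_le_iff zero_le_one]
    exact ⟨hu, by simp⟩
  · have h2 : i + 1 ≠ 0 := by omega
    simp only [h, h2, if_false, rho_self]
    exact zero_le_one

theorem Ch.smul {B : Form V Z} {u : V} (hu : ‖u‖ ≤ 1) (k : ℕ) :
    Ch B k (((k : ℝ) • u, 0) : V × Z) := by
  induction k with
  | zero => exact ⟨fun _ => 0, rfl, by simp; rfl, fun i => by simp⟩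
  | succ k ih =>
    have h := ih.mul (Ch.one (B := B) hu)
    have e : Pool.Agent.Q100.CT.mul B (((k : ℝ) • u, 0) : V × Z) (u, 0) =
        ((((k + 1 : ℕ) : ℝ) • u, 0) : V × Z) := by
      apply Prod.ext
      · simp only [mul_fst]
        push_cast
        rw [add_smul, one_smul]
      · simp only [mul_snd, map_smul, LinearMap.smul_apply, B.alt]
        simp
    rwa [e] at h

theorem Ch.hor {B : Form V Z} {m : ℕ} (hm : 0 < m) {v : V} (hv : ‖v‖ ≤ m) :
    Ch B m ((v, 0) : V × Z) := by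
  have hm' : (0 : ℝ) < m := by exact_mod_cast hm
  have h : ‖(m : ℝ)⁻¹ • v‖ ≤ 1 := by
    rw [norm_smul, norm_inv, Real.norm_natCast, inv_mul_le_one₀ hm']
    exact hv
  have := Ch.smul (B := B) h m
  rwa [smul_smul, mul_inv_cancel₀ hm'.ne', one_smul] at this

theorem Ch.comm {B : Form V Z} {m : ℕ} (hm : 0 < m) {v w : V} (hv : ‖v‖ ≤ m) (hw : ‖w‖ ≤ m) :
    Ch B (4 * m) ((0, B.b v w) : V × Z) := by
  have h := ((Ch.hor (B := B) hm hv).mul (Ch.hor hm hw)).mul
    ((Ch.hor hm (v := -v) (by simpa using hv)).mul (Ch.hor hm (v := -w) (by simpa using hw)))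
  have e : Pool.Agent.Q100.CT.mul B (Pool.Agent.Q100.CT.mul B (v, 0) (w, 0))
      (Pool.Agent.Q100.CT.mul B (-v, 0) (-w, 0)) = ((0, B.b v w) : V × Z) := by
    apply Prod.ext
    · simp only [mul_fst]; abel
    · simp only [mul_snd, mul_fst, map_add, map_neg, LinearMap.add_apply, LinearMap.neg_apply,
        B.alt]
      rw [b_neg B w v]
      module
  rw [e] at h
  have e2 : m + m + (m + m) = 4 * m := by ring
  rwa [e2] at h

theorem chain : S_chain := by
  intro θ hθ g
  rcases Nat.eq_zero_or_pos ⌈nrm g⌉₊ with h0 | hm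
  · have h1 : nrm g ≤ 0 := Nat.ceil_eq_zero.1 h0
    have h2 : g = 0 := nrm_eq_zero (le_antisymm h1 (nrm_nonneg g))
    refine ⟨0, fun _ => 0, ?_, rfl, h2.symm, fun i => by simp⟩
    have := nrm_nonneg g
    simp only [Nat.cast_zero]
    linarith
  · obtain ⟨m, hmd⟩ : ∃ m, m = ⌈nrm g⌉₊ := ⟨_, rfl⟩
    rw [← hmd] at hm
    have hm' : (0 : ℝ) < m := by exact_mod_cast hm
    have hle : nrm g ≤ m := by rw [hmd]; exact Nat.le_ceil _
    have hup : (m : ℝ) ≤ nrm g + 1 := by
      rw [hmd]; exact (Nat.ceil_lt_add_one (nrm_nonneg g)).le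
    obtain ⟨hg1, hg2⟩ := (nrm_le_iff hm'.le).1 hle
    have hz : ∀ j, |g.2 j| ≤ (m : ℝ) ^ 2 := fun j => by
      have := norm_le_pi_norm g.2 j
      rw [Real.norm_eq_abs] at this
      exact this.trans hg2
    have hev : ∀ (i : Fin 4) (j : Fin 2) (c : ℝ), ‖c • ev i j‖ = |c| := by
      intro i j c
      rw [norm_smul, ev]
      simp
    have hx : ∀ j, ∀ i : Fin 4, ‖(g.2 j / m) • ev i 0‖ ≤ m := by
      intro j i
      rw [hev, abs_div, abs_of_pos hm', div_le_iff₀ hm']
      have := hz j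
      nlinarith
    have hy : ∀ i : Fin 4, ‖(m : ℝ) • ev i 1‖ ≤ m := by
      intro i
      rw [hev, abs_of_pos hm']
    have hb : ∀ (j : Fin 2) (i : Fin 4), (form θ hθ).b ((g.2 j / m) • ev i 0) ((m : ℝ) • ev i 1) =
        g.2 j • xi θ i := by
      intro j i
      have e1 : bb θ ((g.2 j / m) • ev i 0) = (g.2 j / m) • bb θ (ev i 0) :=
        map_smul (bb θ) _ _
      have e2 : ((g.2 j / m) • bb θ (ev i 0)) ((m : ℝ) • ev i 1) =
          (g.2 j / m) • ((m : ℝ) • bb θ (ev i 0) (ev i 1)) := by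
        rw [LinearMap.smul_apply, LinearMap.map_smul]
      rw [form_b, e1, e2, bb_ev_ev, smul_smul, div_mul_cancel₀ _ hm'.ne']
    have h1 := Ch.comm (B := form θ hθ) hm (hx 0 0) (hy 0)
    have h2 := Ch.comm (B := form θ hθ) hm (hx 1 1) (hy 1)
    rw [hb] at h1 h2
    have h3 := ((Ch.hor (B := form θ hθ) hm hg1).mul h1).mul h2
    have e : Pool.Agent.Q100.CT.mul (form θ hθ) (Pool.Agent.Q100.CT.mul (form θ hθ) (g.1, 0)
        (0, g.2 0 • xi θ 0)) (0, g.2 1 • xi θ 1) = g := by
      apply Prod.ext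
      · simp
      · simp only [mul_snd, mul_fst, map_zero, smul_zero, add_zero, zero_add]
        ext j
        fin_cases j <;> simp [xi]
    rw [e] at h3
    obtain ⟨p, p0, pn, ps⟩ := h3
    refine ⟨m + 4 * m + 4 * m, p, ?_, p0, pn, ps⟩
    push_cast
    linarith

end Pool.Agent.Q186.CT
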