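import Pool.Agent.Q100.CT.Stm

set_option autoImplicit false

open Set Filter Topology

namespace Pool.Agent.Q186.CT

open Pool.Agent.Q100.CT

theorem net : S_net := by
  intro B x
  let a1 : Fin 4 × Fin 2 → ℤ := fun i => ⌊x.1 i⌋
  let v : VV := WithLp.toLp 2 (fun i => (a1 i : ℝ))
  let z : ZZ := x.2 + (1 / 2 : ℝ) • B.b (-v) x.1
  let a2 : Fin 2 → ℤ := fun j => ⌊z j⌋
  refine ⟨(a1, a2), ?_⟩
  unfold rho
  rw [nrm_le_iff (by norm_num)]
  constructor
  · rw [EuclideanSpace.norm_eq, Real.sqrt_le_left (by norm_num)]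
    have h : ∀ i ∈ (Finset.univ : Finset (Fin 4 × Fin 2)),
        ‖(mul B (-(io (a1, a2))) x).1 i‖ ^ 2 ≤ 1 := by
      intro i _
      have e : (mul B (-(io (a1, a2))) x).1 i = Int.fract (x.1 i) := by
        simp only [mul_fst, Prod.fst_neg, PiLp.add_apply, PiLp.neg_apply, io]
        change -((⌊x.1 i⌋ : ℤ) : ℝ) + x.1 i = _
        rw [← Int.self_sub_floor]; ring
      rw [e, Real.norm_eq_abs, sq_abs]
      have h0 := Int.fract_nonneg (x.1 i)
      have h1 := (Int.fract_lt_one (x.1 i)).le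
      nlinarith
    calc ∑ i, ‖(mul B (-(io (a1, a2))) x).1 i‖ ^ 2 ≤ ∑ _i : Fin 4 × Fin 2, (1 : ℝ) :=
          Finset.sum_le_sum h
      _ = 8 := by simp
      _ ≤ 3 ^ 2 := by norm_num
  · rw [pi_norm_le_iff_of_nonneg (by norm_num)]
    intro j
    have e : (mul B (-(io (a1, a2))) x).2 j = Int.fract (z j) := by
      have e1 : (mul B (-(io (a1, a2))) x).2 = -(fun j => ((a2 j : ℤ) : ℝ)) + z := by
        simp only [mul_snd, Prod.snd_neg, Prod.fst_neg, io, z, v]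
        abel
      rw [e1]
      change -((⌊z j⌋ : ℤ) : ℝ) + z j = _
      rw [← Int.self_sub_floor]; ring
    rw [e, Real.norm_eq_abs, abs_of_nonneg (Int.fract_nonneg _)]
    have h1 := (Int.fract_lt_one (z j)).le
    linarith

theorem card_icc (c s : ℝ) (hs : 1 ≤ s) :
    ((Finset.Icc ⌈c - s⌉ ⌊c + s⌋).card : ℝ) ≤ 3 * s := by
  rw [Int.card_Icc]
  have h1 : ((⌊c + s⌋ : ℤ) : ℝ) ≤ c + s := Int.floor_le _
  have h2 : c - s ≤ ((⌈c - s⌉ : ℤ) : ℝ) := Int.le_ceil _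
  rcases le_total 0 (⌊c + s⌋ + 1 - ⌈c - s⌉) with h | h
  · have h3 : (((⌊c + s⌋ + 1 - ⌈c - s⌉).toNat : ℕ) : ℝ) = ((⌊c + s⌋ + 1 - ⌈c - s⌉ : ℤ) : ℝ) := by
      exact_mod_cast congrArg (Int.cast : ℤ → ℝ) (Int.toNat_of_nonneg h)
    rw [h3]
    push_cast
    linarith
  · rw [Int.toNat_of_nonpos h]
    simp only [Nat.cast_zero]
    linarith

theorem card_pi {ι : Type} [Fintype ι] [DecidableEq ι] (c : ι → ℝ) (s : ℝ) (hs : 1 ≤ s) :
    ((Fintype.piFinset fun i => Finset.Icc ⌈c i - s⌉ ⌊c i + s⌋).card : ℝ) ≤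
      (3 * s) ^ Fintype.card ι := by
  rw [Fintype.card_piFinset]
  push_cast
  calc ∏ i, ((Finset.Icc ⌈c i - s⌉ ⌊c i + s⌋).card : ℝ) ≤ ∏ _i : ι, (3 * s) :=
        Finset.prod_le_prod (fun _ _ => Nat.cast_nonneg _) fun i _ => card_icc (c i) s hs
    _ = _ := by simp

theorem ball : S_ball := by
  classical
  intro B
  refine ⟨3 ^ 10, ?_⟩
  intro x r hr
  have hr0 : 0 ≤ r := by linarith
  have hr2 : 1 ≤ r ^ 2 := by nlinarith
  let cc : (Fin 4 × Fin 2 → ℤ) → Fin 2 → ℝ := fun a1 j =>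
    (x.2 - (1 / 2 : ℝ) • B.b (-x.1) (WithLp.toLp 2 (fun i => (a1 i : ℝ)))) j
  let T1 : Finset (Fin 4 × Fin 2 → ℤ) :=
    Fintype.piFinset fun i => Finset.Icc ⌈x.1 i - r⌉ ⌊x.1 i + r⌋
  let T2 : (Fin 4 × Fin 2 → ℤ) → Finset (Fin 2 → ℤ) := fun a1 =>
    Fintype.piFinset fun j => Finset.Icc ⌈cc a1 j - r ^ 2⌉ ⌊cc a1 j + r ^ 2⌋
  let T : Finset PP := T1.biUnion fun a1 => (T2 a1).image fun a2 => (a1, a2)
  have hsub : {a : PP | rho B x (io a) ≤ r} ⊆ (T : Set PP) := by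
    rintro ⟨a1, a2⟩ ha
    have ha' : nrm (mul B (-x) (io (a1, a2))) ≤ r := ha
    rw [nrm_le_iff hr0] at ha'
    obtain ⟨h1, h2⟩ := ha'
    have g1 : ∀ i, |(a1 i : ℝ) - x.1 i| ≤ r := by
      intro i
      have := PiLp.norm_apply_le (mul B (-x) (io (a1, a2))).1 i
      have e : (mul B (-x) (io (a1, a2))).1 i = (a1 i : ℝ) - x.1 i := by
        simp only [mul_fst, Prod.fst_neg, PiLp.add_apply, PiLp.neg_apply, io]
        ring
      rw [e, Real.norm_eq_abs] at this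
      exact this.trans h1
    have g2 : ∀ j, |(a2 j : ℝ) - cc a1 j| ≤ r ^ 2 := by
      intro j
      have := norm_le_pi_norm (mul B (-x) (io (a1, a2))).2 j
      have e : (mul B (-x) (io (a1, a2))).2 j = (a2 j : ℝ) - cc a1 j := by
        simp only [mul_snd, Prod.snd_neg, Prod.fst_neg, io, cc, Pi.add_apply, Pi.neg_apply,
          Pi.sub_apply]
        ring
      rw [e, Real.norm_eq_abs] at this
      exact this.trans h2
    have key : ∀ (k : ℤ) (c s : ℝ), |(k : ℝ) - c| ≤ s → k ∈ Finset.Icc ⌈c - s⌉ ⌊c + s⌋ := by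
      intro k c s h
      rw [abs_le] at h
      rw [Finset.mem_Icc]
      constructor
      · exact Int.ceil_le.2 (by linarith)
      · exact Int.le_floor.2 (by linarith)
    simp only [T, Finset.coe_biUnion, Set.mem_iUnion, Finset.mem_coe, Finset.mem_image, T1, T2,
      Fintype.mem_piFinset]
    exact ⟨a1, fun i => key _ _ _ (g1 i), a2, fun j => key _ _ _ (g2 j), rfl⟩
  refine ⟨T.finite_toSet.subset hsub, ?_⟩
  have hc : (T.card : ℝ) ≤ (3 * r) ^ 8 * (3 * r ^ 2) ^ 2 := by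
    have h1 : T.card ≤ ∑ a1 ∈ T1, (T2 a1).card :=
      Finset.card_biUnion_le.trans (Finset.sum_le_sum fun a1 _ => Finset.card_image_le)
    have h2 : (T.card : ℝ) ≤ ∑ a1 ∈ T1, ((T2 a1).card : ℝ) := by exact_mod_cast h1
    have h3 : ∀ a1 ∈ T1, ((T2 a1).card : ℝ) ≤ (3 * r ^ 2) ^ 2 := by
      intro a1 _
      have := card_pi (cc a1) (r ^ 2) hr2
      rwa [Fintype.card_fin] at this
    have h4 : (T1.card : ℝ) ≤ (3 * r) ^ 8 := by
      have := card_pi (fun i => x.1 i) r hr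
      rwa [Fintype.card_prod, Fintype.card_fin, Fintype.card_fin] at this
    calc (T.card : ℝ) ≤ ∑ a1 ∈ T1, ((T2 a1).card : ℝ) := h2
      _ ≤ ∑ _a1 ∈ T1, (3 * r ^ 2) ^ 2 := Finset.sum_le_sum h3
      _ = T1.card * (3 * r ^ 2) ^ 2 := by rw [Finset.sum_const, nsmul_eq_mul]
      _ ≤ _ := by gcongr
  have hn : ({a : PP | rho B x (io a) ≤ r}.ncard : ℝ) ≤ T.card := by
    have := Set.ncard_le_ncard hsub T.finite_toSet
    rw [Set.ncard_coe_finset] at this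
    exact_mod_cast this
  calc ({a : PP | rho B x (io a) ≤ r}.ncard : ℝ) ≤ T.card := hn
    _ ≤ _ := hc
    _ = ((3 ^ 10 : ℕ) : ℝ) * r ^ 12 := by push_cast; ring

end Pool.Agent.Q186.CT
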